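import Mathlib

open Filter Topology

namespace Pool.Agent.Q211.Abandon

/-- `min(i,m)`. -/
def ff (m i : ℕ) : ℝ := ((min i m : ℕ) : ℝ)
/-- `(i-m)^+`. -/
def gg (m i : ℕ) : ℝ := ((i - m : ℕ) : ℝ)
/-- The death rates in normal form. -/
noncomputable def dn (m : ℕ) (ν θ : ℝ) (i : ℕ) : ℝ := ν * ff m i + θ * gg m i

/-- The weights. -/
noncomputable def cw (m : ℕ) (ν θ x : ℝ) (i : ℕ) : ℝ := ∏ j ∈ Finset.range i, x / dn m ν θ (j + 1)

/-- The normalisation. -/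
noncomputable def ZZ (m : ℕ) (ν θ x : ℝ) : ℝ := ∑' i, cw m ν θ x i

/-- The mean of `min(N,m)`. -/
noncomputable def Am (m : ℕ) (ν θ x : ℝ) : ℝ := (∑' i, cw m ν θ x i * ff m i) / ZZ m ν θ x

variable {m : ℕ} {ν θ x : ℝ}

lemma ff_nonneg (m i : ℕ) : 0 ≤ ff m i := Nat.cast_nonneg _
lemma gg_nonneg (m i : ℕ) : 0 ≤ gg m i := Nat.cast_nonneg _
lemma ff_le (m i : ℕ) : ff m i ≤ m := by
  unfold ff; exact_mod_cast min_le_right i m
lemma ff_zero (m : ℕ) : ff m 0 = 0 := by simp [ff]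
lemma ff_of_le {m i : ℕ} (h : i ≤ m) : ff m i = i := by simp [ff, min_eq_left h]
lemma ff_of_ge {m i : ℕ} (h : m ≤ i) : ff m i = m := by simp [ff, min_eq_right h]
lemma gg_of_le {m i : ℕ} (h : i ≤ m) : gg m i = 0 := by simp [gg, Nat.sub_eq_zero_of_le h]
lemma ff_mono (m : ℕ) : Monotone (ff m) := by
  intro i j hij
  unfold ff
  exact_mod_cast min_le_min_right m hij
lemma gg_mono (m : ℕ) : Monotone (gg m) := by
  intro i j hij
  unfold gg
  exact_mod_cast Nat.sub_le_sub_right hij m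
lemma ff_add_gg (m i : ℕ) : ff m i + gg m i = i := by
  unfold ff gg
  have : min i m + (i - m) = i := by omega
  exact_mod_cast this

lemma dn_zero (m : ℕ) (ν θ : ℝ) : dn m ν θ 0 = 0 := by simp [dn, ff, gg]

lemma dn_strict (hν : 0 < ν) (hθ : 0 < θ) (m i : ℕ) : dn m ν θ i < dn m ν θ (i + 1) := by
  unfold dn
  have h1 := ff_mono m (Nat.le_succ i)
  have h2 := gg_mono m (Nat.le_succ i)
  have h3 := ff_add_gg m i
  have h4 := ff_add_gg m (i + 1)
  push_cast at h4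
  rcases lt_or_ge i m with h | h
  · have e1 : ff m (i + 1) = ff m i + 1 := by
      rw [ff_of_le (by omega), ff_of_le (by omega)]; push_cast; ring
    have e2 : gg m (i + 1) = gg m i := by linarith
    rw [e1, e2]
    nlinarith
  · have e1 : ff m (i + 1) = ff m i := by rw [ff_of_ge (by omega), ff_of_ge h]
    have e2 : gg m (i + 1) = gg m i + 1 := by linarith
    rw [e1, e2]
    nlinarith

lemma dn_mono (hν : 0 < ν) (hθ : 0 < θ) (m : ℕ) : StrictMono (dn m ν θ) :=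
  strictMono_nat_of_lt_succ (dn_strict hν hθ m)

lemma dn_pos (hν : 0 < ν) (hθ : 0 < θ) (m i : ℕ) : 0 < dn m ν θ (i + 1) := by
  have := dn_mono hν hθ m (Nat.succ_pos i)
  rwa [dn_zero] at this

lemma dn_ge (hν : 0 < ν) (hθ : 0 < θ) (m i : ℕ) : min ν θ * i ≤ dn m ν θ i := by
  rw [← ff_add_gg m i, dn, mul_add]
  have h1 := mul_le_mul_of_nonneg_right (min_le_left ν θ) (ff_nonneg m i)
  have h2 := mul_le_mul_of_nonneg_right (min_le_right ν θ) (gg_nonneg m i)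
  linarith

lemma dn_tendsto (hν : 0 < ν) (hθ : 0 < θ) (m : ℕ) :
    Tendsto (fun i => dn m ν θ (i + 1)) atTop atTop := by
  have h1 : Tendsto (fun i : ℕ => min ν θ * ((i + 1 : ℕ) : ℝ)) atTop atTop :=
    ((tendsto_natCast_atTop_atTop (R := ℝ)).comp (tendsto_add_atTop_nat 1)).const_mul_atTop
      (lt_min hν hθ)
  exact tendsto_atTop_mono (fun i => dn_ge hν hθ m (i + 1)) h1

lemma cw_zero (m : ℕ) (ν θ x : ℝ) : cw m ν θ x 0 = 1 := by simp [cw]

lemma cw_succ (m : ℕ) (ν θ x : ℝ) (i : ℕ) :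
    cw m ν θ x (i + 1) = cw m ν θ x i * (x / dn m ν θ (i + 1)) := by
  rw [cw, Finset.prod_range_succ, cw]

lemma cw_pos (hν : 0 < ν) (hθ : 0 < θ) (hx : 0 < x) (m i : ℕ) : 0 < cw m ν θ x i :=
  Finset.prod_pos fun j _ => div_pos hx (dn_pos hν hθ m j)

lemma cw_bal (hν : 0 < ν) (hθ : 0 < θ) (m i : ℕ) :
    dn m ν θ (i + 1) * cw m ν θ x (i + 1) = x * cw m ν θ x i := by
  rw [cw_succ]
  have := (dn_pos hν hθ m i).ne'
  field_simp

lemma cw_summable (hν : 0 < ν) (hθ : 0 < θ) (hx : 0 < x) (m : ℕ) :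
    Summable (cw m ν θ x) := by
  refine summable_of_ratio_test_tendsto_lt_one (l := 0) one_pos
    (Eventually.of_forall fun i => (cw_pos hν hθ hx m i).ne') ?_
  have h1 : Tendsto (fun i => x / dn m ν θ (i + 1)) atTop (𝓝 0) :=
    (dn_tendsto hν hθ m).const_div_atTop x
  refine h1.congr fun i => ?_
  have h2 := cw_pos hν hθ hx m i
  have h3 := cw_pos hν hθ hx m (i + 1)
  rw [Real.norm_eq_abs, Real.norm_eq_abs, abs_of_pos h2, abs_of_pos h3, cw_succ]
  field_simp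

lemma cw_mul_summable (hν : 0 < ν) (hθ : 0 < θ) (hx : 0 < x) (m : ℕ) {v : ℕ → ℝ} {C : ℝ}
    (hv : ∀ i, |v i| ≤ C) : Summable fun i => cw m ν θ x i * v i := by
  refine Summable.of_norm_bounded ((cw_summable hν hθ hx m).mul_right C) fun i => ?_
  rw [norm_mul, Real.norm_eq_abs, Real.norm_eq_abs, abs_of_pos (cw_pos hν hθ hx m i)]
  exact mul_le_mul_of_nonneg_left (hv i) (cw_pos hν hθ hx m i).le

lemma cw_ff_summable (hν : 0 < ν) (hθ : 0 < θ) (hx : 0 < x) (m : ℕ) :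
    Summable fun i => cw m ν θ x i * ff m i :=
  cw_mul_summable hν hθ hx m (C := m) fun i => by
    rw [abs_of_nonneg (ff_nonneg m i)]; exact ff_le m i

lemma ZZ_pos (hν : 0 < ν) (hθ : 0 < θ) (hx : 0 < x) (m : ℕ) : 0 < ZZ m ν θ x :=
  (cw_summable hν hθ hx m).tsum_pos (fun i => (cw_pos hν hθ hx m i).le) 0 (cw_pos hν hθ hx m 0)

/-- The centred tail sums. -/
noncomputable def Tl (m : ℕ) (ν θ x : ℝ) (i : ℕ) : ℝ :=
  ∑' k, cw m ν θ x (k + i) * (ff m (k + i) - Am m ν θ x)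

lemma cen_summable (hν : 0 < ν) (hθ : 0 < θ) (hx : 0 < x) (m : ℕ) :
    Summable fun i => cw m ν θ x i * (ff m i - Am m ν θ x) := by
  have := (cw_ff_summable hν hθ hx m).sub ((cw_summable hν hθ hx m).mul_right (Am m ν θ x))
  refine this.congr fun i => ?_
  ring

lemma Tl_zero (hν : 0 < ν) (hθ : 0 < θ) (hx : 0 < x) (m : ℕ) : Tl m ν θ x 0 = 0 := by
  have h1 : Tl m ν θ x 0 = (∑' i, cw m ν θ x i * ff m i) - ZZ m ν θ x * Am m ν θ x := by
    rw [Tl, ZZ, ← tsum_mul_right, ← (cw_ff_summable hν hθ hx m).tsum_sub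
      ((cw_summable hν hθ hx m).mul_right (Am m ν θ x))]
    refine tsum_congr fun i => ?_
    simp only [add_zero]
    ring
  rw [h1, Am, mul_div_cancel₀ _ (ZZ_pos hν hθ hx m).ne', sub_self]

lemma Tl_succ (hν : 0 < ν) (hθ : 0 < θ) (hx : 0 < x) (m i : ℕ) :
    Tl m ν θ x i = cw m ν θ x i * (ff m i - Am m ν θ x) + Tl m ν θ x (i + 1) := by
  have h := (summable_nat_add_iff i).2 (cen_summable hν hθ hx m)
  rw [Tl, h.tsum_eq_zero_add, Tl]
  congr 1
  · simp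
  · refine tsum_congr fun k => ?_
    rw [show k + 1 + i = k + (i + 1) by ring]

/-- The mean of `min(N,m)` is less than `m`. -/
lemma Am_lt (hν : 0 < ν) (hθ : 0 < θ) (hx : 0 < x) {m : ℕ} (hm : 1 ≤ m) : Am m ν θ x < m := by
  rw [Am, div_lt_iff₀ (ZZ_pos hν hθ hx m), ZZ, ← tsum_mul_left]
  refine Summable.tsum_lt_tsum (i := 0) (fun i => ?_) ?_ (cw_ff_summable hν hθ hx m)
    ((cw_summable hν hθ hx m).mul_left _)
  · rw [mul_comm]
    exact mul_le_mul_of_nonneg_right (ff_le m i) (cw_pos hν hθ hx m i).le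
  · rw [ff_zero, mul_zero, cw_zero, mul_one]
    exact_mod_cast hm

lemma Am_nonneg (hν : 0 < ν) (hθ : 0 < θ) (hx : 0 < x) (m : ℕ) : 0 ≤ Am m ν θ x :=
  div_nonneg (tsum_nonneg fun i => mul_nonneg (cw_pos hν hθ hx m i).le (ff_nonneg m i))
    (ZZ_pos hν hθ hx m).le

lemma Tl_eq_sum (hν : 0 < ν) (hθ : 0 < θ) (hx : 0 < x) (m i : ℕ) :
    Tl m ν θ x i = -∑ j ∈ Finset.range i, cw m ν θ x j * (ff m j - Am m ν θ x) := by
  induction i with
  | zero => simp [Tl_zero hν hθ hx m]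
  | succ i ih =>
    have := Tl_succ hν hθ hx m i
    rw [Finset.sum_range_succ]
    linarith

lemma Tl_pos (hν : 0 < ν) (hθ : 0 < θ) (hx : 0 < x) {m : ℕ} (hm : 1 ≤ m) (i : ℕ) :
    0 < Tl m ν θ x (i + 1) := by
  rcases lt_or_ge (ff m i) (Am m ν θ x) with h | h
  · rw [Tl_eq_sum hν hθ hx m, neg_pos]
    refine Finset.sum_neg (fun j hj => ?_) ⟨0, Finset.mem_range.2 (Nat.succ_pos i)⟩
    have hji : ff m j ≤ ff m i := ff_mono m (by have := Finset.mem_range.1 hj; omega)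
    exact mul_neg_of_pos_of_neg (cw_pos hν hθ hx m j) (by linarith)
  · have hs := (summable_nat_add_iff (i + 1)).2 (cen_summable hν hθ hx m)
    refine hs.tsum_pos (fun k => ?_) m ?_
    · refine mul_nonneg (cw_pos hν hθ hx m _).le ?_
      have := ff_mono m (show i ≤ k + (i + 1) by omega)
      linarith
    · refine mul_pos (cw_pos hν hθ hx m _) ?_
      rw [ff_of_ge (by omega)]
      linarith [Am_lt hν hθ hx hm]

/-- The difference of the Poisson solution. -/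
noncomputable def uu (m : ℕ) (ν θ x : ℝ) (i : ℕ) : ℝ :=
  Tl m ν θ x (i + 1) / (x * cw m ν θ x i)

lemma uu_pos (hν : 0 < ν) (hθ : 0 < θ) (hx : 0 < x) {m : ℕ} (hm : 1 ≤ m) (i : ℕ) :
    0 < uu m ν θ x i :=
  div_pos (Tl_pos hν hθ hx hm i) (mul_pos hx (cw_pos hν hθ hx m i))

lemma uu_zero (hν : 0 < ν) (hθ : 0 < θ) (hx : 0 < x) (m : ℕ) :
    x * uu m ν θ x 0 = Am m ν θ x := by
  have h1 := Tl_succ hν hθ hx m 0
  rw [Tl_zero hν hθ hx m, ff_zero, cw_zero] at h1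
  rw [uu, cw_zero, mul_one, mul_div_cancel₀ _ hx.ne']
  linarith

lemma uu_rec (hν : 0 < ν) (hθ : 0 < θ) (hx : 0 < x) (m i : ℕ) :
    x * uu m ν θ x (i + 1) - dn m ν θ (i + 1) * uu m ν θ x i =
      Am m ν θ x - ff m (i + 1) := by
  have h1 := Tl_succ hν hθ hx m (i + 1)
  have hc := cw_pos hν hθ hx m i
  have hc' := cw_pos hν hθ hx m (i + 1)
  have hb := cw_bal (x := x) hν hθ m i
  have e1 : x * uu m ν θ x (i + 1) = Tl m ν θ x (i + 1 + 1) / cw m ν θ x (i + 1) := by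
    rw [uu]; field_simp
  have e2 : dn m ν θ (i + 1) * uu m ν θ x i = Tl m ν θ x (i + 1) / cw m ν θ x (i + 1) := by
    rw [uu, ← hb]
    have := (dn_pos hν hθ m i).ne'
    field_simp
  rw [e1, e2, ← sub_div, div_eq_iff hc'.ne']
  linarith

end Pool.Agent.Q211.Abandon
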