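import Pool.Agent.Q211.Abandon.Mono

open Filter Topology

namespace Pool.Agent.Q211.Abandon

/-- The two disciplines: deadline to the beginning, or to the end, of service. -/
inductive Disc
  | dbs
  | des

/-- The total abandonment rate `L(i)` with `i` jobs present. -/
noncomputable def Lab (D : Disc) (m : ℕ) (θ : ℝ) (i : ℕ) : ℝ :=
  match D with
  | .dbs => ((i - m : ℕ) : ℝ) * θ
  | .des => (i : ℝ) * θ

/-- The death rate `d_i = min(i,m) μ + L(i)`. -/
noncomputable def dth (D : Disc) (m : ℕ) (μ θ : ℝ) (i : ℕ) : ℝ :=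
  ((min i m : ℕ) : ℝ) * μ + Lab D m θ i

/-- The weights `∏_{j=1}^i λ / d_j`. -/
noncomputable def wst (D : Disc) (m : ℕ) (μ θ lam : ℝ) (i : ℕ) : ℝ :=
  ∏ j ∈ Finset.range i, lam / dth D m μ θ (j + 1)

/-- The stationary law. -/
noncomputable def stat (D : Disc) (m : ℕ) (μ θ lam : ℝ) (i : ℕ) : ℝ :=
  wst D m μ θ lam i / ∑' k, wst D m μ θ lam k

/-- The mean abandonment rate `ℓ(λ) = ∑ π_i L(i)`. -/
noncomputable def ell (D : Disc) (m : ℕ) (μ θ lam : ℝ) : ℝ :=
  ∑' i, stat D m μ θ lam i * Lab D m θ i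

/-- The effective service rate in the normal form. -/
noncomputable def nuD (D : Disc) (μ θ : ℝ) : ℝ :=
  match D with
  | .dbs => μ
  | .des => μ + θ

variable {D : Disc} {m : ℕ} {μ θ : ℝ}

lemma nuD_pos (hμ : 0 < μ) (hθ : 0 < θ) : 0 < nuD D μ θ := by
  cases D
  · exact hμ
  · exact add_pos hμ hθ

lemma nuD_ge (hθ : 0 < θ) : μ ≤ nuD D μ θ := by
  cases D
  · exact le_rfl
  · exact le_add_of_nonneg_right hθ.le

lemma dth_eq (D : Disc) (m : ℕ) (μ θ : ℝ) (i : ℕ) : dth D m μ θ i = dn m (nuD D μ θ) θ i := by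
  cases D
  · simp only [dth, Lab, dn, nuD, ff, gg]
    ring
  · have h := ff_add_gg m i
    simp only [dth, Lab, dn, nuD]
    rw [← h]
    simp only [ff]
    ring

lemma wst_eq (D : Disc) (m : ℕ) (μ θ lam : ℝ) :
    wst D m μ θ lam = cw m (nuD D μ θ) θ lam := by
  funext i
  simp only [wst, cw, dth_eq]

lemma Lab_summable (hμ : 0 < μ) (hθ : 0 < θ) {lam : ℝ} (hl : 0 < lam) :
    Summable fun i => stat D m μ θ lam i * Lab D m θ i := by
  have hν := nuD_pos (D := D) hμ hθ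
  have hf := cw_ff_summable hν hθ hl m
  have hg := gg_summable hν hθ hl m
  cases D
  · refine (hg.mul_right (θ / ∑' k, wst .dbs m μ θ lam k)).congr fun i => ?_
    simp only [stat, Lab, wst_eq, gg]
    ring
  · refine ((hf.add hg).mul_right (θ / ∑' k, wst .des m μ θ lam k)).congr fun i => ?_
    have h := ff_add_gg m i
    simp only [stat, Lab, wst_eq]
    rw [← h]
    ring

lemma ell_eq (hμ : 0 < μ) (hθ : 0 < θ) {lam : ℝ} (hl : 0 < lam) :
    ell D m μ θ lam = lam - μ * Am m (nuD D μ θ) θ lam := by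
  have hν := nuD_pos (D := D) hμ hθ
  have hf := cw_ff_summable hν hθ hl m
  have hg := gg_summable hν hθ hl m
  have hb := balance hν hθ hl m
  cases D
  · have h1 : ell .dbs m μ θ lam = θ * Bm m (nuD .dbs μ θ) θ lam := by
      rw [ell, Bm, ZZ, ← wst_eq, mul_div_assoc', ← tsum_mul_left, ← tsum_div_const]
      refine tsum_congr fun i => ?_
      simp only [stat, Lab, gg]
      ring
    have h2 : nuD .dbs μ θ = μ := rfl
    rw [h1]
    rw [h2] at hb ⊢
    linarith
  · have h1 : ell .des m μ θ lam =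
        θ * (Am m (nuD .des μ θ) θ lam + Bm m (nuD .des μ θ) θ lam) := by
      rw [ell, Am, Bm, ← add_div, ← hf.tsum_add hg, ZZ, ← wst_eq, mul_div_assoc',
        ← tsum_mul_left, ← tsum_div_const]
      refine tsum_congr fun i => ?_
      have h := ff_add_gg m i
      simp only [stat, Lab]
      rw [← h]
      ring
    have h2 : nuD .des μ θ = μ + θ := rfl
    rw [h1]
    rw [h2] at hb ⊢
    linarith

lemma ell_slope (hμ : 0 < μ) (hθ : 0 < θ) (hm : 1 ≤ m) {x y : ℝ} (hx : 0 < x) (hy : 0 < y)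
    (hxy : x ≠ y) : (ell D m μ θ y - ell D m μ θ x) / (y - x) =
      1 - μ * sl m (nuD D μ θ) θ x y := by
  have hν := nuD_pos (D := D) hμ hθ
  have h := slope_eq hν hθ hx hy hm
  have hne : y - x ≠ 0 := sub_ne_zero.2 hxy.symm
  rw [ell_eq hμ hθ hx, ell_eq hμ hθ hy, div_eq_iff hne]
  have : y - μ * Am m (nuD D μ θ) θ y - (x - μ * Am m (nuD D μ θ) θ x) =
      (y - x) - μ * (Am m (nuD D μ θ) θ y - Am m (nuD D μ θ) θ x) := by ring
  rw [this, h]
  ring

lemma sl_lt_one (hμ : 0 < μ) (hθ : 0 < θ) (hm : 1 ≤ m) {x y : ℝ} (hx : 0 < x) (hy : 0 < y) :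
    μ * sl m (nuD D μ θ) θ x y < 1 := by
  have hν := nuD_pos (D := D) hμ hθ
  have hZ := ZZ_pos hν hθ hy m
  rw [sl, mul_div_assoc', div_lt_one hZ, ZZ, ← tsum_mul_left]
  have hsu := (cw_mul_summable hν hθ hy m (v := uu m (nuD D μ θ) θ x)
    (fun i => uu_abs hν hθ hx hm i)).mul_left μ
  have ht : ∀ i, μ * (cw m (nuD D μ θ) θ y i * uu m (nuD D μ θ) θ x i) <
      cw m (nuD D μ θ) θ y i := by
    intro i
    have h1 := nu_uu_lt hν hθ hx hm i
    have h2 := uu_pos hν hθ hx hm i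
    have h3 := cw_pos hν hθ hy m i
    have h4 : μ * uu m (nuD D μ θ) θ x i < 1 :=
      (mul_le_mul_of_nonneg_right (nuD_ge hθ) h2.le).trans_lt h1
    nlinarith
  exact Summable.tsum_lt_tsum (i := 0) (fun i => (ht i).le) (ht 0) hsu (cw_summable hν hθ hy m)

lemma sl_pos (hν : 0 < μ) (hθ : 0 < θ) (hm : 1 ≤ m) {x y : ℝ} (hx : 0 < x) (hy : 0 < y) :
    0 < sl m μ θ x y := by
  refine div_pos ?_ (ZZ_pos hν hθ hy m)
  refine (cw_mul_summable hν hθ hy m (v := uu m μ θ x)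
    (fun i => uu_abs hν hθ hx hm i)).tsum_pos (fun i => ?_) 0 ?_
  · exact (mul_pos (cw_pos hν hθ hy m i) (uu_pos hν hθ hx hm i)).le
  · exact mul_pos (cw_pos hν hθ hy m 0) (uu_pos hν hθ hx hm 0)

lemma sl_anti (hν : 0 < μ) (hθ : 0 < θ) (hm : 1 ≤ m) {x y z : ℝ} (hx : 0 < x) (hxz : x < z)
    (hy : 0 < y) : sl m μ θ z y < sl m μ θ x y := by
  have hz := hx.trans hxz
  have hZ := ZZ_pos hν hθ hy m
  refine div_lt_div_of_pos_right ?_ hZ
  have ht : ∀ i, cw m μ θ y i * uu m μ θ z i < cw m μ θ y i * uu m μ θ x i := fun i =>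
    mul_lt_mul_of_pos_left (uu_lt hν hθ hx hxz hm i) (cw_pos hν hθ hy m i)
  exact Summable.tsum_lt_tsum (i := 0) (fun i => (ht i).le) (ht 0)
    (cw_mul_summable hν hθ hy m (fun i => uu_abs hν hθ hz hm i))
    (cw_mul_summable hν hθ hy m (fun i => uu_abs hν hθ hx hm i))

theorem ell_strictMono (hμ : 0 < μ) (hθ : 0 < θ) (hm : 1 ≤ m) :
    StrictMonoOn (ell D m μ θ) (Set.Ioi 0) := by
  intro x hx y hy hxy
  have h1 := ell_slope (D := D) hμ hθ hm hx hy hxy.ne
  have h2 := sl_lt_one (D := D) hμ hθ hm hx hy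
  have h3 : 0 < y - x := by linarith
  rw [div_eq_iff h3.ne'] at h1
  have h4 : 0 < (1 - μ * sl m (nuD D μ θ) θ x y) * (y - x) := mul_pos (by linarith) h3
  linarith

theorem ell_strictConvex (hμ : 0 < μ) (hθ : 0 < θ) (hm : 1 ≤ m) :
    StrictConvexOn ℝ (Set.Ioi 0) (ell D m μ θ) := by
  refine strictConvexOn_of_slope_strict_mono_adjacent (convex_Ioi 0) ?_
  intro x y z hx hz hxy hyz
  have hx' : 0 < x := hx
  have hy : 0 < y := hx'.trans hxy
  have hz' : 0 < z := hz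
  have hν := nuD_pos (D := D) hμ hθ
  have h1 := ell_slope (D := D) hμ hθ hm hx' hy hxy.ne
  have h2 := ell_slope (D := D) hμ hθ hm hz' hy hyz.ne'
  have h3 : (ell D m μ θ z - ell D m μ θ y) / (z - y) =
      (ell D m μ θ y - ell D m μ θ z) / (y - z) := by
    rw [← neg_sub (ell D m μ θ y), ← neg_sub y z, neg_div_neg_eq]
  rw [h3, h1, h2]
  have h4 := sl_anti hν hθ hm hx' (hxy.trans hyz) hy
  have h5 := mul_lt_mul_of_pos_left h4 hμ
  linarith

/-- The coefficients of the power series. -/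
noncomputable def wco (m : ℕ) (ν θ : ℝ) (i : ℕ) : ℝ :=
  ∏ j ∈ Finset.range i, (dn m ν θ (j + 1))⁻¹

lemma cw_wco (m : ℕ) (ν θ x : ℝ) (i : ℕ) : cw m ν θ x i = wco m ν θ i * x ^ i := by
  rw [cw, wco]
  simp only [div_eq_mul_inv]
  rw [Finset.prod_mul_distrib, Finset.prod_const, Finset.card_range, mul_comm]

lemma ZZ_analytic {ν : ℝ} (hν : 0 < ν) (hθ : 0 < θ) (m : ℕ) :
    AnalyticOnNhd ℝ (ZZ m ν θ) Set.univ := by
  have hpos : ∀ i, 0 < wco m ν θ i := fun i =>
    Finset.prod_pos fun j _ => inv_pos.2 (dn_pos hν hθ m j)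
  have hr : (FormalMultilinearSeries.ofScalars ℝ (wco m ν θ)).radius = ⊤ := by
    refine FormalMultilinearSeries.ofScalars_radius_eq_top_of_tendsto ℝ _
      (Eventually.of_forall fun i => (hpos i).ne') ?_
    have h1 : Tendsto (fun i => 1 / dn m ν θ (i + 1)) atTop (𝓝 0) :=
      (dn_tendsto hν hθ m).const_div_atTop 1
    refine h1.congr fun i => ?_
    rw [Real.norm_eq_abs, Real.norm_eq_abs, abs_of_pos (hpos i), abs_of_pos (hpos _), wco,
      Finset.prod_range_succ, ← wco]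
    have := (hpos i).ne'
    field_simp
  have h := (FormalMultilinearSeries.ofScalars ℝ (wco m ν θ)).hasFPowerSeriesOnBall
    (by rw [hr]; exact ENNReal.zero_lt_top)
  rw [hr] at h
  have h2 := h.analyticOnNhd
  rw [Metric.eball_top] at h2
  have h3 : ZZ m ν θ = (FormalMultilinearSeries.ofScalars ℝ (wco m ν θ)).sum := by
    funext x
    have := FormalMultilinearSeries.ofScalars_sum_eq (E := ℝ) (wco m ν θ) x
    rw [FormalMultilinearSeries.ofScalarsSum] at this
    rw [this, ZZ]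
    refine tsum_congr fun i => ?_
    rw [cw_wco, smul_eq_mul]
  rw [h3]
  exact h2

lemma Am_formula {ν : ℝ} (hν : 0 < ν) (hθ : 0 < θ) {x : ℝ} (hx : 0 < x) (m : ℕ) :
    Am m ν θ x = m - (∑ i ∈ Finset.range m, cw m ν θ x i * (m - ff m i)) / ZZ m ν θ x := by
  have hZ := ZZ_pos hν hθ hx m
  have h1 : ∑' i, cw m ν θ x i * ((m : ℝ) - ff m i) =
      ∑ i ∈ Finset.range m, cw m ν θ x i * (m - ff m i) := by
    refine tsum_eq_sum fun i hi => ?_
    rw [ff_of_ge (by simpa using hi), sub_self, mul_zero]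
  have h2 : ∑' i, cw m ν θ x i * ((m : ℝ) - ff m i) =
      m * ZZ m ν θ x - ∑' i, cw m ν θ x i * ff m i := by
    rw [ZZ, ← tsum_mul_left, ← ((cw_summable hν hθ hx m).mul_left (m : ℝ)).tsum_sub
      (cw_ff_summable hν hθ hx m)]
    refine tsum_congr fun i => ?_
    ring
  rw [← h1, h2, Am]
  field_simp
  ring

theorem ell_analytic (hμ : 0 < μ) (hθ : 0 < θ) :
    AnalyticOnNhd ℝ (ell D m μ θ) (Set.Ioi 0) := by
  have hν := nuD_pos (D := D) hμ hθ
  have hZa : AnalyticOnNhd ℝ (ZZ m (nuD D μ θ) θ) (Set.Ioi 0) :=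
    (ZZ_analytic hν hθ m).mono (Set.subset_univ _)
  have hpoly : AnalyticOnNhd ℝ (fun x : ℝ => ∑ i ∈ Finset.range m,
      cw m (nuD D μ θ) θ x i * (m - ff m i)) (Set.Ioi 0) := by
    refine Finset.analyticOnNhd_fun_sum _ fun i _ => ?_
    have : (fun x : ℝ => cw m (nuD D μ θ) θ x i * ((m : ℝ) - ff m i)) =
        fun x => wco m (nuD D μ θ) θ i * x ^ i * ((m : ℝ) - ff m i) := by
      funext x; rw [cw_wco]
    rw [this]
    exact (analyticOnNhd_const.mul (analyticOnNhd_id.pow i)).mul analyticOnNhd_const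
  have hq : AnalyticOnNhd ℝ (fun x : ℝ => x - μ * (m - (∑ i ∈ Finset.range m,
      cw m (nuD D μ θ) θ x i * (m - ff m i)) / ZZ m (nuD D μ θ) θ x)) (Set.Ioi 0) :=
    analyticOnNhd_id.sub (analyticOnNhd_const.mul (analyticOnNhd_const.sub
      (hpoly.div hZa fun x hx => (ZZ_pos hν hθ hx m).ne')))
  refine hq.congr isOpen_Ioi fun x hx => ?_
  rw [ell_eq hμ hθ hx, Am_formula hν hθ hx m]

theorem ell_deriv_limit (hμ : 0 < μ) (hθ : 0 < θ) (hm : 1 ≤ m) :
    Tendsto (deriv (ell D m μ θ)) atTop (𝓝 1) := by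
  have hν := nuD_pos (D := D) hμ hθ
  have hcv := (ell_strictConvex (D := D) hμ hθ hm).convexOn
  have hd : ∀ x : ℝ, 0 < x → DifferentiableAt ℝ (ell D m μ θ) x := fun x hx =>
    (ell_analytic hμ hθ x hx).differentiableAt
  have hlow : ∀ y : ℝ, 0 < y → 1 - 2 * μ * m / y ≤ deriv (ell D m μ θ) y := by
    intro y hy
    have h1 := hcv.slope_le_deriv (x := y / 2) (y := y) (half_pos hy) hy (by linarith) (hd y hy)
    rw [slope_def_field, ell_eq hμ hθ hy, ell_eq hμ hθ (half_pos hy)] at h1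
    have hA1 := (Am_lt hν hθ hy hm).le
    have hA2 := Am_nonneg hν hθ (half_pos hy) m
    refine le_trans ?_ h1
    rw [le_div_iff₀ (by linarith)]
    have h3 : (1 - 2 * μ * m / y) * (y - y / 2) = y / 2 - μ * m := by
      field_simp
      ring
    rw [h3]
    nlinarith
  have hup : ∀ y : ℝ, 0 < y → deriv (ell D m μ θ) y ≤ 1 := by
    intro y hy
    have h1 := hcv.deriv_le_slope (x := y) (y := y + 1) hy (by simp; linarith) (by linarith)
      (hd y hy)
    rw [slope_def_field, ell_slope hμ hθ hm hy (by linarith) (by linarith)] at h1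
    have h2 := mul_pos hμ (sl_pos hν hθ hm hy (show 0 < y + 1 by linarith))
    linarith
  have hl : Tendsto (fun y : ℝ => 1 - 2 * μ * m / y) atTop (𝓝 1) := by
    have := (tendsto_id (α := ℝ) (x := atTop)).const_div_atTop (2 * μ * m)
    simpa using this.const_sub 1
  refine tendsto_of_tendsto_of_tendsto_of_le_of_le' hl tendsto_const_nhds ?_ ?_
  · filter_upwards [eventually_gt_atTop 0] with y hy using hlow y hy
  · filter_upwards [eventually_gt_atTop 0] with y hy using hup y hy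

end Pool.Agent.Q211.Abandon
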