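import Pool.Agent.Q211.Abandon.Chain

open Filter Topology

namespace Pool.Agent.Q211.Abandon

variable {m : ℕ} {ν θ x x' : ℝ}

/-- The mean of `(N-m)^+`. -/
noncomputable def Bm (m : ℕ) (ν θ x : ℝ) : ℝ := (∑' i, cw m ν θ x i * gg m i) / ZZ m ν θ x

lemma cd_summable (hν : 0 < ν) (hθ : 0 < θ) (hx : 0 < x) (m : ℕ) :
    Summable fun i => cw m ν θ x i * dn m ν θ i := by
  rw [← summable_nat_add_iff 1]
  refine ((cw_summable hν hθ hx m).mul_left x).congr fun i => ?_
  rw [← cw_bal hν hθ m i]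
  ring

lemma gg_summable (hν : 0 < ν) (hθ : 0 < θ) (hx : 0 < x) (m : ℕ) :
    Summable fun i => cw m ν θ x i * gg m i := by
  have h := ((cd_summable hν hθ hx m).sub ((cw_ff_summable hν hθ hx m).mul_left ν)).div_const θ
  refine h.congr fun i => ?_
  rw [dn]
  field_simp
  ring

lemma balance (hν : 0 < ν) (hθ : 0 < θ) (hx : 0 < x) (m : ℕ) :
    ν * Am m ν θ x + θ * Bm m ν θ x = x := by
  have hZ := ZZ_pos hν hθ hx m
  have h1 : ∑' i, cw m ν θ x i * dn m ν θ i = x * ZZ m ν θ x := by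
    rw [(cd_summable hν hθ hx m).tsum_eq_zero_add, dn_zero, mul_zero, zero_add, ZZ,
      ← tsum_mul_left]
    refine tsum_congr fun i => ?_
    rw [← cw_bal hν hθ m i]
    ring
  have h2 : ∑' i, cw m ν θ x i * dn m ν θ i = ν * ∑' i, cw m ν θ x i * ff m i +
      θ * ∑' i, cw m ν θ x i * gg m i := by
    rw [← tsum_mul_left, ← tsum_mul_left, ← ((cw_ff_summable hν hθ hx m).mul_left ν).tsum_add
      ((gg_summable hν hθ hx m).mul_left θ)]
    refine tsum_congr fun i => ?_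
    rw [dn]
    ring
  rw [Am, Bm]
  have h3 : ν * ((∑' i, cw m ν θ x i * ff m i) / ZZ m ν θ x) +
      θ * ((∑' i, cw m ν θ x i * gg m i) / ZZ m ν θ x) =
      (ν * ∑' i, cw m ν θ x i * ff m i + θ * ∑' i, cw m ν θ x i * gg m i) / ZZ m ν θ x := by
    ring
  rw [h3, ← h2, h1, mul_div_assoc, div_self hZ.ne', mul_one]

lemma Bm_pos (hν : 0 < ν) (hθ : 0 < θ) (hx : 0 < x) (m : ℕ) : 0 < Bm m ν θ x := by
  refine div_pos ?_ (ZZ_pos hν hθ hx m)
  refine (gg_summable hν hθ hx m).tsum_pos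
    (fun i => mul_nonneg (cw_pos hν hθ hx m i).le (gg_nonneg m i)) (m + 1) ?_
  refine mul_pos (cw_pos hν hθ hx m _) ?_
  simp [gg]

lemma nuA_lt (hν : 0 < ν) (hθ : 0 < θ) (hx : 0 < x) (m : ℕ) : ν * Am m ν θ x < x := by
  have h1 := balance hν hθ hx m
  have h2 := mul_pos hθ (Bm_pos hν hθ hx m)
  linarith

lemma uu_low (hν : 0 < ν) (hθ : 0 < θ) (hx : 0 < x) (m i : ℕ) (hi : i ≤ m) :
    ν * uu m ν θ x i < 1 ∧ ∀ j < i, uu m ν θ x (j + 1) < uu m ν θ x j := by
  induction i with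
  | zero =>
    refine ⟨?_, fun j hj => absurd hj (Nat.not_lt_zero j)⟩
    have h1 := uu_zero hν hθ hx m
    have h2 := nuA_lt hν hθ hx m
    rw [← h1] at h2
    by_contra h
    push Not at h
    nlinarith
  | succ i ih =>
    obtain ⟨h1, h2⟩ := ih (by omega)
    have key : uu m ν θ x (i + 1) < uu m ν θ x i := by
      have hr := uu_rec hν hθ hx m i
      have hd : dn m ν θ (i + 1) = ν * ((i : ℝ) + 1) := by
        rw [dn, ff_of_le hi, gg_of_le hi]; push_cast; ring
      rw [hd, ff_of_le hi] at hr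
      push_cast at hr
      cases i with
      | zero =>
        have h0 := uu_zero hν hθ hx m
        simp only [Nat.cast_zero, zero_add, mul_one] at hr
        have h3 : x * uu m ν θ x (0 + 1) < x * uu m ν θ x 0 := by
          simp only [zero_add] at hr ⊢
          linarith
        exact lt_of_mul_lt_mul_left h3 hx.le
      | succ j =>
        have hr' := uu_rec hν hθ hx m j
        have hd' : dn m ν θ (j + 1) = ν * ((j : ℝ) + 1) := by
          rw [dn, ff_of_le (by omega), gg_of_le (by omega)]; push_cast; ring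
        rw [hd', ff_of_le (by omega)] at hr'
        push_cast at hr' hr
        have h3 := h2 j (Nat.lt_succ_self j)
        have h4 : x * uu m ν θ x (j + 1 + 1) < x * uu m ν θ x (j + 1) := by
          have h5 : (0 : ℝ) ≤ j := Nat.cast_nonneg j
          have h6 : ν * uu m ν θ x (j + 1) < ν * uu m ν θ x j := mul_lt_mul_of_pos_left h3 hν
          nlinarith
        exact lt_of_mul_lt_mul_left h4 hx.le
    refine ⟨?_, fun j hj => ?_⟩
    · have := mul_lt_mul_of_pos_left key hν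
      linarith
    · rcases Nat.lt_succ_iff_lt_or_eq.1 hj with h | h
      · exact h2 j h
      · rw [h]; exact key

lemma uu_high (hν : 0 < ν) (hθ : 0 < θ) (hx : 0 < x) {m : ℕ} (hm : 1 ≤ m) {i : ℕ}
    (hi : m ≤ i + 1) : uu m ν θ x (i + 1) < uu m ν θ x i := by
  have hA := Am_lt hν hθ hx hm
  have hc := cw_pos hν hθ hx m i
  have hc' := cw_pos hν hθ hx m (i + 1)
  rw [uu, uu, div_lt_div_iff₀ (mul_pos hx hc') (mul_pos hx hc)]
  have hterm : ∀ k, cw m ν θ x (k + (i + 1 + 1)) * (ff m (k + (i + 1 + 1)) - Am m ν θ x) *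
      cw m ν θ x i < cw m ν θ x (k + (i + 1)) * (ff m (k + (i + 1)) - Am m ν θ x) *
      cw m ν θ x (i + 1) := by
    intro k
    rw [ff_of_ge (by omega), ff_of_ge (by omega)]
    have e1 : cw m ν θ x (k + (i + 1 + 1)) =
        cw m ν θ x (k + (i + 1)) * (x / dn m ν θ (k + (i + 1) + 1)) := by
      rw [show k + (i + 1 + 1) = k + (i + 1) + 1 by ring, cw_succ]
    have e2 := cw_succ m ν θ x i
    rw [e1, e2]
    have hd : dn m ν θ (i + 1) < dn m ν θ (k + (i + 1) + 1) := dn_mono hν hθ m (by omega)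
    have hd0 := dn_pos hν hθ m i
    have h1 : x / dn m ν θ (k + (i + 1) + 1) < x / dn m ν θ (i + 1) :=
      div_lt_div_of_pos_left hx hd0 hd
    have hck := cw_pos hν hθ hx m (k + (i + 1))
    have hpos : 0 < cw m ν θ x (k + (i + 1)) * ((m : ℝ) - Am m ν θ x) * cw m ν θ x i := by
      have : 0 < (m : ℝ) - Am m ν θ x := by linarith
      positivity
    have := mul_lt_mul_of_pos_left h1 hpos
    nlinarith
  have hs1 := ((summable_nat_add_iff (i + 1 + 1)).2 (cen_summable hν hθ hx m)).mul_right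
    (cw m ν θ x i)
  have hs2 := ((summable_nat_add_iff (i + 1)).2 (cen_summable hν hθ hx m)).mul_right
    (cw m ν θ x (i + 1))
  have h2 : Tl m ν θ x (i + 1 + 1) * cw m ν θ x i < Tl m ν θ x (i + 1) * cw m ν θ x (i + 1) := by
    rw [Tl, Tl, ← tsum_mul_right, ← tsum_mul_right]
    exact Summable.tsum_lt_tsum (i := 0) (fun k => (hterm k).le) (hterm 0) hs1 hs2
  nlinarith

lemma uu_anti (hν : 0 < ν) (hθ : 0 < θ) (hx : 0 < x) {m : ℕ} (hm : 1 ≤ m) (i : ℕ) :
    uu m ν θ x (i + 1) < uu m ν θ x i := by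
  rcases Nat.lt_or_ge i m with h | h
  · exact (uu_low hν hθ hx m (i + 1) (by omega)).2 i (Nat.lt_succ_self i)
  · exact uu_high hν hθ hx hm (by omega)

lemma uu_le (hν : 0 < ν) (hθ : 0 < θ) (hx : 0 < x) {m : ℕ} (hm : 1 ≤ m) (i : ℕ) :
    uu m ν θ x i ≤ uu m ν θ x 0 :=
  antitone_nat_of_succ_le (fun i => (uu_anti hν hθ hx hm i).le) (Nat.zero_le i)

lemma nu_uu_lt (hν : 0 < ν) (hθ : 0 < θ) (hx : 0 < x) {m : ℕ} (hm : 1 ≤ m) (i : ℕ) :
    ν * uu m ν θ x i < 1 := by
  have h1 := (uu_low hν hθ hx m 0 (Nat.zero_le m)).1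
  have h2 := mul_le_mul_of_nonneg_left (uu_le hν hθ hx hm i) hν.le
  linarith

lemma uu_tendsto (hν : 0 < ν) (hθ : 0 < θ) (hx : 0 < x) {m : ℕ} (hm : 1 ≤ m) :
    Tendsto (uu m ν θ x) atTop (𝓝 0) := by
  have h1 : Tendsto (fun i => (x * uu m ν θ x 0 + m) / dn m ν θ (i + 1)) atTop (𝓝 0) :=
    (dn_tendsto hν hθ m).const_div_atTop _
  refine squeeze_zero (fun i => (uu_pos hν hθ hx hm i).le) (fun i => ?_) h1
  rw [le_div_iff₀ (dn_pos hν hθ m i)]
  have h2 := uu_rec hν hθ hx m i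
  have h3 := mul_le_mul_of_nonneg_left (uu_le hν hθ hx hm (i + 1)) hx.le
  have h4 := ff_le m (i + 1)
  have h5 := Am_nonneg hν hθ hx m
  nlinarith

/-- Comparison in the arrival rate, by the maximum principle. -/
lemma uu_lt (hν : 0 < ν) (hθ : 0 < θ) (hx : 0 < x) (hxx : x < x') {m : ℕ} (hm : 1 ≤ m) (i : ℕ) :
    uu m ν θ x' i < uu m ν θ x i := by
  have hx' : 0 < x' := hx.trans hxx
  by_contra hcon
  push Not at hcon
  set D : ℕ → ℝ := fun i => uu m ν θ x i - uu m ν θ x' i with hD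
  have hDt : Tendsto D atTop (𝓝 0) := by
    simpa using (uu_tendsto hν hθ hx hm).sub (uu_tendsto hν hθ hx' hm)
  obtain ⟨i0, h0, hmin⟩ : ∃ i0, D i0 ≤ 0 ∧ ∀ j, D i0 ≤ D j := by
    by_cases hneg : ∃ j, D j < 0
    · obtain ⟨j, hj⟩ := hneg
      obtain ⟨N, hN⟩ := eventually_atTop.1 (hDt.eventually_const_lt hj)
      obtain ⟨i0, -, hi0⟩ := Finset.exists_min_image (Finset.range (N + j + 1)) D
        ⟨j, Finset.mem_range.2 (by omega)⟩
      have hij := hi0 j (Finset.mem_range.2 (by omega))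
      refine ⟨i0, hij.trans hj.le, fun l => ?_⟩
      rcases Nat.lt_or_ge l (N + j + 1) with hl | hl
      · exact hi0 l (Finset.mem_range.2 hl)
      · exact hij.trans (hN l (by omega)).le
    · push Not at hneg
      refine ⟨i, by simp only [hD]; linarith, fun j => ?_⟩
      have h1 : D i ≤ 0 := by simp only [hD]; linarith
      exact h1.trans (hneg j)
  have hκ := dn_strict hν hθ m
  cases i0 with
  | zero =>
    have e1 := uu_rec hν hθ hx m 0
    have e2 := uu_zero hν hθ hx m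
    have e3 := uu_rec hν hθ hx' m 0
    have e4 := uu_zero hν hθ hx' m
    have a := uu_anti hν hθ hx' hm 0
    have hd := dn_pos hν hθ m 0
    have h1 := hmin 1
    simp only [hD] at h0 h1
    simp only [zero_add] at e1 e3 a hd
    have k1 : 0 ≤ x * ((uu m ν θ x 1 - uu m ν θ x' 1) - (uu m ν θ x 0 - uu m ν θ x' 0)) :=
      mul_nonneg hx.le (by linarith)
    have k2 : 0 ≤ dn m ν θ 1 * (-(uu m ν θ x 0 - uu m ν θ x' 0)) :=
      mul_nonneg hd.le (by linarith)
    have k3 : 0 < (x' - x) * (uu m ν θ x' 0 - uu m ν θ x' 1) :=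
      mul_pos (by linarith) (by linarith)
    nlinarith
  | succ k =>
    have e1 := uu_rec hν hθ hx m k
    have e2 := uu_rec hν hθ hx m (k + 1)
    have e3 := uu_rec hν hθ hx' m k
    have e4 := uu_rec hν hθ hx' m (k + 1)
    have a := uu_anti hν hθ hx' hm (k + 1)
    have hd := dn_pos hν hθ m k
    have hk := hκ (k + 1)
    have h1 := hmin (k + 1 + 1)
    have h2 := hmin k
    simp only [hD] at h0 h1 h2
    have k1 : 0 ≤ x * ((uu m ν θ x (k + 1 + 1) - uu m ν θ x' (k + 1 + 1)) -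
        (uu m ν θ x (k + 1) - uu m ν θ x' (k + 1))) :=
      mul_nonneg hx.le (by linarith)
    have k2 : 0 ≤ dn m ν θ (k + 1) * ((uu m ν θ x k - uu m ν θ x' k) -
        (uu m ν θ x (k + 1) - uu m ν θ x' (k + 1))) :=
      mul_nonneg hd.le (by linarith)
    have k3 : 0 ≤ (dn m ν θ (k + 1 + 1) - dn m ν θ (k + 1)) *
        (-(uu m ν θ x (k + 1) - uu m ν θ x' (k + 1))) :=
      mul_nonneg (by linarith) (by linarith)
    have k4 : 0 < (x' - x) * (uu m ν θ x' (k + 1) - uu m ν θ x' (k + 1 + 1)) :=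
      mul_pos (by linarith) (by linarith)
    nlinarith

/-- The slopes of the mean of `min(N,m)`. -/
noncomputable def sl (m : ℕ) (ν θ x y : ℝ) : ℝ :=
  (∑' i, cw m ν θ y i * uu m ν θ x i) / ZZ m ν θ y

lemma uu_abs (hν : 0 < ν) (hθ : 0 < θ) (hx : 0 < x) {m : ℕ} (hm : 1 ≤ m) (i : ℕ) :
    |uu m ν θ x i| ≤ uu m ν θ x 0 := by
  rw [abs_of_pos (uu_pos hν hθ hx hm i)]
  exact uu_le hν hθ hx hm i

lemma slope_eq (hν : 0 < ν) (hθ : 0 < θ) (hx : 0 < x) {y : ℝ} (hy : 0 < y) {m : ℕ}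
    (hm : 1 ≤ m) : Am m ν θ y - Am m ν θ x = (y - x) * sl m ν θ x y := by
  have hZ := ZZ_pos hν hθ hy m
  have hsu := cw_mul_summable hν hθ hy m (v := uu m ν θ x) (fun i => uu_abs hν hθ hx hm i)
  have hsf := cw_ff_summable hν hθ hy m
  have hsc := cw_summable hν hθ hy m
  -- the right-hand side of the Poisson equation
  have h1 : ∑' i, cw m ν θ y i * (Am m ν θ x - ff m i) =
      ZZ m ν θ y * (Am m ν θ x - Am m ν θ y) := by
    have e : (fun i => cw m ν θ y i * (Am m ν θ x - ff m i)) =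
        fun i => cw m ν θ y i * Am m ν θ x - cw m ν θ y i * ff m i := by
      funext i; ring
    rw [e, (hsc.mul_right _).tsum_sub hsf, tsum_mul_right, ← ZZ, mul_sub]
    congr 1
    rw [Am, mul_div_cancel₀ _ hZ.ne']
  have hsA : Summable fun i => cw m ν θ y i * (Am m ν θ x - ff m i) := by
    refine ((hsc.mul_right (Am m ν θ x)).sub hsf).congr fun i => ?_
    ring
  have h2 : ∑' i, cw m ν θ y i * (Am m ν θ x - ff m i) =
      (x - y) * ∑' i, cw m ν θ y i * uu m ν θ x i := by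
    have e0 : ∑' i, cw m ν θ y i * uu m ν θ x i = cw m ν θ y 0 * uu m ν θ x 0 +
        ∑' i, cw m ν θ y (i + 1) * uu m ν θ x (i + 1) := hsu.tsum_eq_zero_add
    have hs1 : Summable fun i => cw m ν θ y (i + 1) * uu m ν θ x (i + 1) :=
      (summable_nat_add_iff 1).2 hsu
    rw [hsA.tsum_eq_zero_add]
    have e1 : ∀ i, cw m ν θ y (i + 1) * (Am m ν θ x - ff m (i + 1)) =
        x * (cw m ν θ y (i + 1) * uu m ν θ x (i + 1)) - y * (cw m ν θ y i * uu m ν θ x i) := by
      intro i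
      rw [← uu_rec hν hθ hx m i, ← mul_assoc y, ← cw_bal hν hθ m i]
      ring
    rw [tsum_congr e1, (hs1.mul_left x).tsum_sub (hsu.mul_left y), tsum_mul_left, tsum_mul_left,
      ff_zero, ← uu_zero hν hθ hx m, cw_zero, e0, cw_zero]
    ring
  rw [h1] at h2
  rw [sl, mul_div_assoc', eq_div_iff hZ.ne']
  linarith

end Pool.Agent.Q211.Abandon
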